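import Mathlib
import Pool.Agent.Lib.helper23.VorC

set_option autoImplicit false

namespace Pool.Agent.Results.MP_b633b3_co.Main

/-- the Voronoi cell of `v` with respect to the sites `T` -/
def cell {V : Type} (G : SimpleGraph V) (T : Finset V) (v : V) : Set V :=
  {u | ∀ w ∈ T, G.dist u v ≤ G.dist u w}

/-- the number of sites with an infinite cell -/
noncomputable def infCells {V : Type} (G : SimpleGraph V) (T : Finset V) : ℕ :=
  {v | v ∈ T ∧ (cell G T v).Infinite}.ncard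

/-- the survival number -/
noncomputable def surv {V : Type} (G : SimpleGraph V) : ℕ∞ :=
  ⨆ (n : ℕ) (_ : 1 ≤ n ∧ ∃ d : ℕ, ∀ T : Finset V, n ≤ T.card →
    (∀ v ∈ T, ∀ w ∈ T, v ≠ w → d < G.dist v w) → n ≤ infCells G T), (n : ℕ∞)

/-- infinite, connected, locally finite and vertex-transitive -/
def Good {V : Type} (G : SimpleGraph V) : Prop :=
  Infinite V ∧ G.Connected ∧ (∀ v, (G.neighborSet v).Finite) ∧ ∀ u v, ∃ φ : G ≃g G, φ u = v

/-- quasi-isometric graphs -/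
def QuasiIsometric {V W : Type} (G : SimpleGraph V) (H : SimpleGraph W) : Prop :=
  ∃ (f : V → W) (l c : ℝ), 1 ≤ l ∧ 0 ≤ c ∧
    (∀ x y, l⁻¹ * G.dist x y - c ≤ H.dist (f x) (f y) ∧
      (H.dist (f x) (f y) : ℝ) ≤ l * G.dist x y + c) ∧ ∀ w, ∃ x, (H.dist w (f x) : ℝ) ≤ c

open Pool.Agent.Lib.helper23.Vor in
theorem result : ∃ (V W : Type) (G : SimpleGraph V) (H : SimpleGraph W), Good G ∧ Good H ∧
    QuasiIsometric G H ∧ surv G < ⊤ ∧ surv H = ⊤ := by
  refine ⟨P, P, mg D2, mg D1, ⟨inferInstance, dist2.1, fin2, trans2⟩,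
    ⟨inferInstance, dist1.1, fin1, trans1⟩, ⟨id, 2, 0, one_le_two, le_rfl, fun x y => ?_,
      fun w => ⟨w, by simp⟩⟩, surv2.trans_lt (ENat.coe_lt_top 8), surv1⟩
  have h1 : D2 x y ≤ D1 x y ∧ D1 x y ≤ 2 * D2 x y := by
    simp only [D1, D2]
    omega
  have h2 : (D2 x y : ℝ) ≤ D1 x y := by exact_mod_cast h1.1
  have h3 : (D1 x y : ℝ) ≤ 2 * D2 x y := by exact_mod_cast h1.2
  simp only [id, dist1.2, dist2.2]
  constructor <;> linarith [Nat.cast_nonneg (α := ℝ) (D2 x y)]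

end Pool.Agent.Results.MP_b633b3_co.Main
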